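import Mathlib

/-!
# A family of nilpotent-by-cyclic groups built from a bilinear form

`W D` is the set of triples `(u, a, p)`, with `u` a finitely supported lamp configuration on the
integers, `a` in a commutative ring of characteristic two, `p` an integer.
-/

set_option linter.unusedSectionVars false

namespace Pool.Agent.Helper39.SI

/-- Finitely supported lamp configurations on the integers. -/
abbrev Lamp := ℤ →₀ ZMod 2

/-- The data: a unit `θ` of the ring and a function `c` on the integers with `c 0 = 0`. -/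
structure Dat (R : Type) [CommRing R] where
  θ : Rˣ
  c : ℤ → R
  c0 : c 0 = 0

variable {R : Type} [CommRing R] [Algebra (ZMod 2) R]

/-- Translation of lamp configurations. -/
noncomputable def sh (p : ℤ) : Lamp →ₗ[ZMod 2] Lamp :=
  Finsupp.lmapDomain (ZMod 2) (ZMod 2) (fun m : ℤ => m + p)

theorem sh_single (p m : ℤ) (x : ZMod 2) :
    sh p (Finsupp.single m x) = Finsupp.single (m + p) x := by
  simp [sh, Finsupp.lmapDomain_apply, Finsupp.mapDomain_single]

theorem sh_zero (u : Lamp) : sh 0 u = u := by
  induction u using Finsupp.induction_linear with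
  | zero => simp
  | add f g hf hg => rw [map_add, hf, hg]
  | single m x => rw [sh_single]; simp

theorem sh_sh (p q : ℤ) (u : Lamp) : sh p (sh q u) = sh (p + q) u := by
  induction u using Finsupp.induction_linear with
  | zero => simp
  | add f g hf hg => rw [map_add, map_add, hf, hg, map_add]
  | single m x =>
    rw [sh_single, sh_single, sh_single]
    congr 1
    ring

/-- The bilinear form. -/
noncomputable def bet (D : Dat R) : Lamp →ₗ[ZMod 2] Lamp →ₗ[ZMod 2] R :=
  Finsupp.linearCombination (ZMod 2) (fun m : ℤ =>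
    Finsupp.linearCombination (ZMod 2) (fun m' : ℤ => D.c (m' - m) * ((D.θ ^ m : Rˣ) : R)))

theorem bet_single (D : Dat R) (m m' : ℤ) (x y : ZMod 2) :
    bet D (Finsupp.single m x) (Finsupp.single m' y)
      = (x * y) • (D.c (m' - m) * ((D.θ ^ m : Rˣ) : R)) := by
  simp [bet, Finsupp.linearCombination_single, mul_smul]

theorem bet_sh (D : Dat R) (p : ℤ) (u v : Lamp) :
    bet D (sh p u) (sh p v) = ((D.θ ^ p : Rˣ) : R) * bet D u v := by
  induction u using Finsupp.induction_linear with
  | zero => simp
  | add f g hf hg => simp only [map_add, LinearMap.add_apply, hf, hg, mul_add]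
  | single m x =>
    induction v using Finsupp.induction_linear with
    | zero => simp
    | add f g hf hg => simp only [map_add, hf, hg, mul_add]
    | single m' y =>
      rw [sh_single, sh_single, bet_single, bet_single]
      rw [mul_smul_comm]
      congr 1
      rw [show m' + p - (m + p) = m' - m by ring, zpow_add, Units.val_mul]
      ring

/-- The underlying set of the group. -/
@[ext]
structure W (D : Dat R) where
  u : Lamp
  a : R
  p : ℤ

namespace W

variable {D : Dat R}

noncomputable instance : Mul (W D) :=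
  ⟨fun g h => ⟨g.u + sh g.p h.u,
    g.a + ((D.θ ^ g.p : Rˣ) : R) * h.a + bet D g.u (sh g.p h.u), g.p + h.p⟩⟩

noncomputable instance : One (W D) := ⟨⟨0, 0, 0⟩⟩

noncomputable instance : Inv (W D) :=
  ⟨fun g => ⟨-sh (-g.p) g.u,
    -(((D.θ ^ (-g.p) : Rˣ) : R) * g.a) + bet D (sh (-g.p) g.u) (sh (-g.p) g.u), -g.p⟩⟩

@[simp] theorem mul_u (g h : W D) : (g * h).u = g.u + sh g.p h.u := rfl
@[simp] theorem mul_a (g h : W D) :
    (g * h).a = g.a + ((D.θ ^ g.p : Rˣ) : R) * h.a + bet D g.u (sh g.p h.u) := rfl
@[simp] theorem mul_p (g h : W D) : (g * h).p = g.p + h.p := rfl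
@[simp] theorem one_u : (1 : W D).u = 0 := rfl
@[simp] theorem one_a : (1 : W D).a = 0 := rfl
@[simp] theorem one_p : (1 : W D).p = 0 := rfl
@[simp] theorem inv_u (g : W D) : (g⁻¹).u = -sh (-g.p) g.u := rfl
@[simp] theorem inv_a (g : W D) :
    (g⁻¹).a = -(((D.θ ^ (-g.p) : Rˣ) : R) * g.a) + bet D (sh (-g.p) g.u) (sh (-g.p) g.u) := rfl
@[simp] theorem inv_p (g : W D) : (g⁻¹).p = -g.p := rfl

noncomputable instance : Group (W D) := by
  refine Group.ofLeftAxioms ?_ ?_ ?_
  · intro g h k
    ext1
    · simp only [mul_u, mul_p, map_add, sh_sh, add_assoc]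
    · simp only [mul_u, mul_p, mul_a, map_add, LinearMap.add_apply]
      have h1 : bet D (sh g.p h.u) (sh (g.p + h.p) k.u)
          = ((D.θ ^ g.p : Rˣ) : R) * bet D h.u (sh h.p k.u) := by
        rw [← sh_sh, bet_sh]
      rw [h1, sh_sh, zpow_add, Units.val_mul]
      ring
    · simp only [mul_p, add_assoc]
  · intro g
    ext1
    · simp [sh_zero]
    · simp
    · simp
  · intro g
    ext1
    · simp
    · simp
    · simp

end W

variable {D : Dat R}

/-- The central-type element with only the middle coordinate. -/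
noncomputable def cen (D : Dat R) (x : R) : W D := ⟨0, x, 0⟩

theorem cen_mul (x : R) (g : W D) : cen D x * g = ⟨g.u, x + g.a, g.p⟩ := by
  ext1
  · simp [cen, sh_zero]
  · simp [cen]
  · simp [cen]

theorem cen_zero : cen D (0 : R) = 1 := rfl

theorem cen_cen (x y : R) : cen D x * cen D y = cen D (x + y) := by
  rw [cen_mul]; rfl

theorem mul_cen (x : R) (g : W D) :
    g * cen D x = cen D (((D.θ ^ g.p : Rˣ) : R) * x) * g := by
  rw [cen_mul]
  ext1
  · simp [cen]
  · simp [cen, add_comm]
  · simp [cen]

/-- the lamp `b` at place `m` -/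
noncomputable def bd (b : Bool) (m : ℤ) : Lamp := if b then Finsupp.single m 1 else 0

@[simp] theorem bd_false (m : ℤ) : bd false m = 0 := rfl
@[simp] theorem bd_true (m : ℤ) : bd true m = Finsupp.single m 1 := rfl

theorem sh_bd (b : Bool) (m p : ℤ) : sh p (bd b m) = bd b (m + p) := by
  cases b
  · simp
  · simp [sh_single]

/-- letters: `(d, b)`, with direction `d` and toggle `b` -/
noncomputable def lt (D : Dat R) (x : Bool × Bool) : W D :=
  if x.1 then ⟨bd x.2 1, 0, 1⟩ else ⟨bd x.2 0, 0, -1⟩

/-- evaluation of reversed words -/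
noncomputable def ev (D : Dat R) : List (Bool × Bool) → W D
  | [] => 1
  | x :: w => ev D w * lt D x

@[simp] theorem ev_nil : ev D [] = 1 := rfl
theorem ev_cons (x : Bool × Bool) (w : List (Bool × Bool)) : ev D (x :: w) = ev D w * lt D x := rfl

theorem ev_append (v w : List (Bool × Bool)) : ev D (v ++ w) = ev D w * ev D v := by
  induction v with
  | nil => simp
  | cons x v ih => rw [List.cons_append, ev_cons, ev_cons, ih, mul_assoc]

theorem lt_inv (b : Bool) : (lt D (true, b))⁻¹ = lt D (false, b) := by
  ext1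
  · cases b <;> simp [lt, sh_single]
    all_goals exact neg_eq_of_add_eq_zero_left (by
      rw [← Finsupp.single_add]; simp [show (1 : ZMod 2) + 1 = 0 from rfl])
  · cases b <;> simp [lt, sh_single, bet_single, D.c0]
  · simp [lt]

theorem lt_inv' (b : Bool) : (lt D (false, b))⁻¹ = lt D (true, b) := by
  rw [← lt_inv, inv_inv]

/-- the edge crossed from position `p` in direction `d` -/
def edg (d : Bool) (p : ℤ) : ℤ := if d then p + 1 else p

/-- the sign of a direction -/
def sg (d : Bool) : ℤ := if d then 1 else -1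

theorem ev_cons_u (x : Bool × Bool) (w : List (Bool × Bool)) :
    (ev D (x :: w)).u = (ev D w).u + bd x.2 (edg x.1 (ev D w).p) := by
  obtain ⟨d, b⟩ := x
  cases d <;> simp [ev_cons, lt, sh_bd, edg, add_comm]

theorem ev_cons_a (x : Bool × Bool) (w : List (Bool × Bool)) :
    (ev D (x :: w)).a = (ev D w).a + bet D (ev D w).u (bd x.2 (edg x.1 (ev D w).p)) := by
  obtain ⟨d, b⟩ := x
  cases d <;> simp [ev_cons, lt, sh_bd, edg, add_comm]

theorem ev_cons_p (x : Bool × Bool) (w : List (Bool × Bool)) :
    (ev D (x :: w)).p = (ev D w).p + sg x.1 := by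
  obtain ⟨d, b⟩ := x
  cases d <;> simp [ev_cons, lt, sg]

end Pool.Agent.Helper39.SI
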