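import Pool.Agent.Helper39.SI.A

/-!
# Paths on the integers, turns, detours
-/

set_option linter.unusedSectionVars false

namespace Pool.Agent.Helper39.SI

/-- end position of a (reversed) path -/
def ps : List Bool → ℤ
  | [] => 0
  | d :: σ => ps σ + sg d

/-- lowest position of a (reversed) path -/
def lo : List Bool → ℤ
  | [] => 0
  | d :: σ => min (lo σ) (ps σ + sg d)

/-- highest position of a (reversed) path -/
def hi : List Bool → ℤ
  | [] => 0
  | d :: σ => max (hi σ) (ps σ + sg d)

/-- number of turns, given the direction of the following letter -/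
def tf : Bool → List Bool → ℕ
  | _, [] => 0
  | d, x :: σ => (if x = d then 0 else 1) + tf x σ

/-- number of turns -/
def tn : List Bool → ℕ
  | [] => 0
  | x :: σ => tf x σ

theorem sg_cases (d : Bool) : (d = true ∧ sg d = 1) ∨ (d = false ∧ sg d = -1) := by
  cases d <;> simp [sg]

theorem bounds (σ : List Bool) : lo σ ≤ 0 ∧ 0 ≤ hi σ ∧ lo σ ≤ ps σ ∧ ps σ ≤ hi σ := by
  induction σ with
  | nil => simp [lo, hi, ps]
  | cons d σ ih =>
    obtain ⟨h1, h2, h3, h4⟩ := ih
    simp only [lo, hi, ps]
    refine ⟨?_, ?_, ?_, ?_⟩ <;> omega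

theorem ps_append (α β : List Bool) : ps (α ++ β) = ps β + ps α := by
  induction α with
  | nil => simp [ps]
  | cons d α ih => simp only [List.cons_append, ps, ih]; ring

theorem lo_append (α β : List Bool) : lo (α ++ β) = min (lo β) (ps β + lo α) := by
  induction α with
  | nil => have := bounds β; simp only [List.nil_append, lo]; omega
  | cons d α ih => simp only [List.cons_append, lo, ih, ps_append]; omega

theorem hi_append (α β : List Bool) : hi (α ++ β) = max (hi β) (ps β + hi α) := by
  induction α with
  | nil => have := bounds β; simp only [List.nil_append, hi]; omega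
  | cons d α ih => simp only [List.cons_append, hi, ih, ps_append]; omega

theorem range_le_length (σ : List Bool) : hi σ - lo σ ≤ σ.length := by
  induction σ with
  | nil => simp [lo, hi]
  | cons d σ ih =>
    have := bounds σ
    have h := sg_cases d
    simp only [lo, hi, List.length_cons, Nat.cast_add, Nat.cast_one]
    omega

theorem rep_true (n : ℕ) : ps (List.replicate n true) = n ∧ lo (List.replicate n true) = 0 ∧
    hi (List.replicate n true) = n := by
  induction n with
  | zero => simp [ps, lo, hi]
  | succ n ih =>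
    obtain ⟨h1, h2, h3⟩ := ih
    simp only [List.replicate_succ, ps, lo, hi, h1, h2, h3, sg]
    refine ⟨?_, ?_, ?_⟩ <;> simp <;> omega

theorem rep_false (n : ℕ) : ps (List.replicate n false) = -n ∧
    lo (List.replicate n false) = -n ∧ hi (List.replicate n false) = 0 := by
  induction n with
  | zero => simp [ps, lo, hi]
  | succ n ih =>
    obtain ⟨h1, h2, h3⟩ := ih
    simp only [List.replicate_succ, ps, lo, hi, h1, h2, h3, sg]
    refine ⟨?_, ?_, ?_⟩ <;> simp <;> omega

/-- The potential inequality, in a form suited to induction. -/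
theorem pot_aux (σ : List Bool) : ∀ d : Bool,
    (d = true → lo (d :: σ) ≤ ps (d :: σ) - 1) ∧ (d = false → ps (d :: σ) + 1 ≤ hi (d :: σ)) ∧
    (if hi (d :: σ) = 0 then (1 : ℤ) else 0) + (if lo (d :: σ) = 0 then (1 : ℤ) else 0)
      + (if d = true ∧ 0 < ps (d :: σ) then (1 : ℤ) else 0)
      + (if d = false ∧ ps (d :: σ) < 0 then (1 : ℤ) else 0)
      ≤ ((d :: σ).length : ℤ) - tn (d :: σ) + 2 - 2 * (hi (d :: σ) - lo (d :: σ))
        + |ps (d :: σ)| := by
  induction σ with
  | nil =>
    intro d
    cases d <;> simp [lo, hi, ps, tn, tf, sg]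
  | cons e σ ih =>
    intro d
    obtain ⟨h1, h2, h3⟩ := ih e
    have hb := bounds (e :: σ)
    generalize hP : ps (e :: σ) = P at *
    generalize hL : lo (e :: σ) = L at *
    generalize hH : hi (e :: σ) = H at *
    have ht : tn (d :: e :: σ) = (if e = d then 0 else 1) + tn (e :: σ) := rfl
    have hp' : ps (d :: e :: σ) = P + sg d := by rw [← hP]; rfl
    have hl' : lo (d :: e :: σ) = min L (P + sg d) := by rw [← hP, ← hL]; rfl
    have hh' : hi (d :: e :: σ) = max H (P + sg d) := by rw [← hP, ← hH]; rfl
    rw [ht, hp', hl', hh']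
    generalize tn (e :: σ) = T at *
    have hlen : (((d :: e :: σ).length : ℕ) : ℤ) = ((e :: σ).length : ℤ) + 1 := by
      simp
    rw [hlen]
    generalize (((e :: σ).length : ℕ) : ℤ) = n at *
    simp only [Int.abs_eq_natAbs] at *
    cases d <;> cases e <;> simp only [sg, Bool.false_eq_true, Bool.true_eq_false, if_true,
      if_false, false_and, true_and, forall_true_left, IsEmpty.forall_iff] at * <;>
      (refine ⟨by omega, ?_⟩; omega)

theorem pot (σ : List Bool) :
    (tn σ : ℤ) + 2 * (hi σ - lo σ) - |ps σ| ≤ σ.length + 2 := by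
  cases σ with
  | nil => simp [tn, hi, lo, ps]
  | cons d σ =>
    obtain ⟨-, -, h3⟩ := pot_aux σ d
    split_ifs at h3 <;> linarith

/-- Every position in the range is visited. -/
theorem visit (σ : List Bool) (q : ℤ) (h1 : lo σ ≤ q) (h2 : q ≤ hi σ) :
    ∃ α β, σ = α ++ β ∧ ps β = q := by
  induction σ with
  | nil =>
    simp only [lo, hi] at h1 h2
    exact ⟨[], [], rfl, by simp only [ps]; omega⟩
  | cons d σ ih =>
    by_cases h : lo σ ≤ q ∧ q ≤ hi σ
    · obtain ⟨α, β, h3, h4⟩ := ih h.1 h.2
      exact ⟨d :: α, β, by rw [h3]; rfl, h4⟩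
    · refine ⟨[], d :: σ, rfl, ?_⟩
      have hb := bounds σ
      have hs := sg_cases d
      simp only [lo, hi, ps] at *
      omega

/-- Canonical paths. -/
theorem canon (l h p : ℤ) (hl : l ≤ 0) (hh : 0 ≤ h) (h1 : l ≤ p) (h2 : p ≤ h) :
    ∃ σ : List Bool, lo σ = l ∧ hi σ = h ∧ ps σ = p ∧ (σ.length : ℤ) = 2 * (h - l) - |p| := by
  rcases le_total 0 p with hp | hp
  · refine ⟨List.replicate (h - p).toNat false ++
      (List.replicate (h - l).toNat true ++ List.replicate (-l).toNat false), ?_, ?_, ?_, ?_⟩
    · simp only [lo_append, ps_append, (rep_true _).1, (rep_true _).2.1, (rep_false _).1,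
        (rep_false _).2.1]
      omega
    · simp only [hi_append, ps_append, (rep_true _).1, (rep_true _).2.2, (rep_false _).1,
        (rep_false _).2.2]
      omega
    · simp only [ps_append, (rep_true _).1, (rep_false _).1]
      omega
    · rw [Int.abs_eq_natAbs]
      simp only [List.length_append, List.length_replicate]
      omega
  · refine ⟨List.replicate (p - l).toNat true ++
      (List.replicate (h - l).toNat false ++ List.replicate (h).toNat true), ?_, ?_, ?_, ?_⟩
    · simp only [lo_append, ps_append, (rep_true _).1, (rep_true _).2.1, (rep_false _).1,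
        (rep_false _).2.1]
      omega
    · simp only [hi_append, ps_append, (rep_true _).1, (rep_true _).2.2, (rep_false _).1,
        (rep_false _).2.2]
      omega
    · simp only [ps_append, (rep_true _).1, (rep_false _).1]
      omega
    · rw [Int.abs_eq_natAbs]
      simp only [List.length_append, List.length_replicate]
      omega

variable {R : Type} [CommRing R] [Algebra (ZMod 2) R] {D : Dat R}

/-- directions of a word -/
abbrev dr (w : List (Bool × Bool)) : List Bool := w.map Prod.fst

theorem ev_p (w : List (Bool × Bool)) : (ev D w).p = ps (dr w) := by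
  induction w with
  | nil => rfl
  | cons x w ih => rw [ev_cons_p, ih]; rfl

theorem bd_apply_ne (b : Bool) (m e : ℤ) (h : m ≠ e) : bd b e m = 0 := by
  cases b
  · simp
  · simp [Finsupp.single_apply, h.symm]

theorem ev_supp (w : List (Bool × Bool)) (m : ℤ) (h : (ev D w).u m ≠ 0) :
    lo (dr w) < m ∧ m ≤ hi (dr w) := by
  induction w with
  | nil => simp at h
  | cons x w ih =>
    rw [ev_cons_u, ev_p] at h
    by_cases hm : m = edg x.1 (ps (dr w))
    · have hb := bounds (dr w)
      obtain ⟨d, b⟩ := x
      subst hm
      simp only [dr, List.map_cons, lo, hi] at *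
      cases d <;> simp only [edg, sg, if_true, Bool.false_eq_true, if_false] <;> omega
    · rw [Finsupp.add_apply, bd_apply_ne _ _ _ hm, add_zero] at h
      have := ih h
      simp only [dr, List.map_cons, lo, hi] at *
      omega

/-- Every lamp configuration supported on the range of a path is realised along this path. -/
theorem toggle (σ : List Bool) : ∀ u : Lamp, (∀ m, u m ≠ 0 → lo σ < m ∧ m ≤ hi σ) →
    ∃ w, dr w = σ ∧ (ev D w).u = u := by
  induction σ with
  | nil =>
    intro u hu
    refine ⟨[], rfl, ?_⟩
    ext m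
    by_contra hm
    have := hu m (fun h => hm (by rw [h]; rfl))
    simp only [lo, hi] at this
    omega
  | cons d σ ih =>
    intro u hu
    have hb := bounds σ
    set e := edg d (ps σ) with he
    obtain ⟨w, hw1, hw2⟩ := ih (u.erase e) (by
      intro m hm
      rw [Finsupp.erase_apply] at hm
      by_cases hme : m = e
      · simp [hme] at hm
      · rw [if_neg hme] at hm
        have := hu m hm
        simp only [lo, hi] at this
        cases d <;> simp only [edg, sg, if_true, Bool.false_eq_true, if_false] at * <;> omega)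
    refine ⟨(d, decide (u e ≠ 0)) :: w, by simp [hw1], ?_⟩
    rw [ev_cons_u, hw2, ev_p, hw1]
    change u.erase e + bd (decide (u e ≠ 0)) e = u
    conv_rhs => rw [← Finsupp.erase_add_single e u]
    congr 1
    by_cases h0 : u e = 0
    · simp [h0]
    · have h1 : u e = 1 := by
        revert h0
        generalize u e = x
        revert x
        decide
      simp [h1]

theorem bet_vanish {F : Type} [CommRing F] (φ : R →+* F) (u : Lamp) (e : ℤ) (b : Bool)
    (h : ∀ m, u m ≠ 0 → φ (D.c (e - m)) = 0) : φ (bet D u (bd b e)) = 0 := by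
  cases b
  · simp
  · rw [bd_true]
    have key : bet D u (Finsupp.single e 1) =
        ∑ m ∈ u.support, u m • (D.c (e - m) * ((D.θ ^ m : Rˣ) : R)) := by
      conv_lhs => rw [← Finsupp.sum_single u]
      rw [Finsupp.sum, map_sum, LinearMap.sum_apply]
      refine Finset.sum_congr rfl fun m _ => ?_
      rw [bet_single, mul_one]
    rw [key, map_sum]
    refine Finset.sum_eq_zero fun m hm => ?_
    have h2 := h m (by simpa using hm)
    rw [Algebra.smul_def, map_mul, map_mul, h2]
    ring

/-- Components of the middle coordinate vanish for words of small range. -/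
theorem ev_a_vanish {F : Type} [CommRing F] (φ : R →+* F) (K : ℤ)
    (hc : ∀ d, |d| < K → φ (D.c d) = 0) (w : List (Bool × Bool))
    (h : hi (dr w) - lo (dr w) ≤ K) : φ ((ev D w).a) = 0 := by
  induction w with
  | nil => simp
  | cons x w ih =>
    have hb := bounds (dr w)
    have hb2 := bounds (dr (x :: w))
    rw [ev_cons_a, map_add, ih (by simp only [dr, List.map_cons, lo, hi] at *; omega), zero_add,
      ev_p]
    apply bet_vanish
    intro m hm
    apply hc
    have h3 := ev_supp w m hm
    rw [Int.abs_eq_natAbs]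
    obtain ⟨d, b⟩ := x
    simp only [dr, List.map_cons, lo, hi] at *
    cases d <;> simp only [edg, sg, if_true, Bool.false_eq_true, if_false] at * <;> omega

/-! ### Detours -/

theorem ev_rep_true (n : ℕ) : ev D (List.replicate n (true, false)) = ⟨0, 0, n⟩ := by
  induction n with
  | zero => rfl
  | succ n ih =>
    rw [List.replicate_succ, ev_cons, ih]
    ext1 <;> simp [lt]

theorem ev_rep_false (n : ℕ) : ev D (List.replicate n (false, false)) = ⟨0, 0, -n⟩ := by
  induction n with
  | zero => rfl
  | succ n ih =>
    rw [List.replicate_succ, ev_cons, ih]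
    ext1
    · simp [lt]
    · simp [lt]
    · simp [lt]; ring

/-- half of the detour word (reversed), for the distance `k + 1` -/
def zh (k : ℕ) : List (Bool × Bool) :=
  List.replicate (k + 2) (false, false) ++
    ((true, true) :: (List.replicate k (true, false) ++ [(true, true)]))

theorem zh_length (k : ℕ) : (zh k).length = 2 * k + 4 := by
  simp [zh]; omega

theorem ev_zh (k : ℕ) : ev D (zh k) = ⟨Finsupp.single 1 1 + Finsupp.single ((k : ℤ) + 2) 1,
    D.c (k + 1) * (D.θ : R), 0⟩ := by
  rw [zh, ev_append, ev_cons, ev_append, ev_rep_true, ev_rep_false]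
  ext1
  · simp [ev_cons, lt, sh_single]
    congr 1
    ring
  · simp [ev_cons, lt, sh_single, bet_single]
    congr 1
    ring
  · simp [ev_cons, lt]
    ring

theorem ev_zz (k : ℕ) (hc : D.c (-(k + 1)) = 0) :
    ev D (zh k ++ zh k) = cen D (D.c (k + 1) * (D.θ : R)) := by
  have two : (1 : ZMod 2) + 1 = 0 := rfl
  rw [ev_append, ev_zh]
  ext1
  · simp only [W.mul_u, cen, sh_zero]
    rw [← two_smul (ZMod 2), show (2 : ZMod 2) = 0 from rfl, zero_smul]
  · simp only [W.mul_a, cen, sh_zero, zpow_zero, Units.val_one, one_mul]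
    simp only [map_add, LinearMap.add_apply, bet_single, sub_self, D.c0, mul_one, one_smul,
      zero_mul, zpow_one]
    rw [show (1 : ℤ) - (k + 2) = -(k + 1) by ring, hc,
      show ((k : ℤ) + 2) - 1 = k + 1 by ring]
    have h2 : D.c (k + 1) * (D.θ : R) + D.c (k + 1) * (D.θ : R) = 0 := by
      rw [← two_smul (ZMod 2), show (2 : ZMod 2) = 0 from rfl, zero_smul]
    linear_combination h2
  · simp [cen]

/-- Insertion of a detour. -/
theorem insert_detour (k : ℕ) (hc : D.c (-(k + 1)) = 0) (w : List (Bool × Bool)) (q : ℤ)
    (h1 : lo (dr w) ≤ q) (h2 : q ≤ hi (dr w)) :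
    ∃ w', ev D w' = cen D (((D.θ ^ q : Rˣ) : R) * (D.c (k + 1) * (D.θ : R))) * ev D w ∧
      w'.length = w.length + (4 * k + 8) ∧ hi (dr w) ≤ hi (dr w') ∧ lo (dr w') ≤ lo (dr w) := by
  obtain ⟨α, β, h3, h4⟩ := visit (dr w) q h1 h2
  obtain ⟨a, b, hab, ha, hb⟩ := List.map_eq_append_iff.1 h3
  subst hab
  have hz : ps (dr (zh k ++ zh k)) = 0 := by
    rw [← ev_p (D := D), ev_zz k hc]; rfl
  refine ⟨a ++ ((zh k ++ zh k) ++ b), ?_, ?_, ?_, ?_⟩
  · rw [ev_append, ev_append, ev_zz k hc, ev_append, mul_cen, ev_p]
    change cen D (((D.θ ^ (ps (List.map Prod.fst b)) : Rˣ) : R) * _) * ev D b * ev D a = _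
    rw [hb, h4, mul_assoc]
  · simp only [List.length_append, zh_length]
    omega
  · have := bounds (dr (zh k ++ zh k))
    simp only [dr, List.map_append, hi_append, ps_append, lo_append] at *
    omega
  · have := bounds (dr (zh k ++ zh k))
    simp only [dr, List.map_append, hi_append, ps_append, lo_append] at *
    omega

end Pool.Agent.Helper39.SI
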