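import Pool.Agent.Helper39.SI.B

/-!
# The product of finite fields
-/

set_option linter.unusedSectionVars false

namespace Pool.Agent.Helper39.SI

section field

variable {F : Type} [Field F] [Finite F] [Algebra (ZMod 2) F] (g : Fˣ)
  (hg : ∀ x, x ∈ Subgroup.zpowers g)

include hg in
theorem exists_power (η : F) (hη : η ≠ 0) (q0 : ℤ) :
    ∃ q : ℤ, q0 ≤ q ∧ q < q0 + Nat.card F ∧ ((g ^ (q + 1) : Fˣ) : F) = η := by
  obtain ⟨z, hz⟩ := hg (Units.mk0 η hη)
  have hpos : 0 < orderOf g := orderOf_pos g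
  have hle : orderOf g ≤ Nat.card Fˣ := Nat.le_of_dvd Nat.card_pos (orderOf_dvd_natCard g)
  have hlt : Nat.card Fˣ < Nat.card F := by
    rw [Nat.card_units]
    have : 0 < Nat.card F := Nat.card_pos
    omega
  have hposz : (0 : ℤ) < orderOf g := by exact_mod_cast hpos
  refine ⟨q0 + (z - 1 - q0) % (orderOf g : ℤ), ?_, ?_, ?_⟩
  · have := Int.emod_nonneg (z - 1 - q0) hposz.ne'
    omega
  · have := Int.emod_lt_of_pos (z - 1 - q0) hposz
    omega
  · have h1 : g ^ (q0 + (z - 1 - q0) % (orderOf g : ℤ) + 1) = g ^ z := by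
      rw [show q0 + (z - 1 - q0) % (orderOf g : ℤ) + 1 = (q0 + 1) + (z - 1 - q0) % (orderOf g : ℤ)
        by ring, zpow_add, zpow_mod_orderOf, ← zpow_add]
      congr 1
      ring
    rw [h1]
    simpa using congrArg Units.val hz

include hg in
theorem gen_top : IntermediateField.adjoin (ZMod 2) {(g : F)} = ⊤ := by
  rw [eq_top_iff]
  intro x _
  by_cases hx : x = 0
  · rw [hx]; exact zero_mem _
  · obtain ⟨z, hz⟩ := hg (Units.mk0 x hx)
    have h1 : (g : F) ^ z = x := by
      have := congrArg Units.val hz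
      simpa using this
    rw [← h1]
    exact zpow_mem (IntermediateField.mem_adjoin_simple_self _ _) z

include hg in
theorem pow_indep (n : ℕ) (hn : n ≤ Module.finrank (ZMod 2) F) :
    LinearIndependent (ZMod 2) (fun i : Fin n => (g : F) ^ (i : ℕ)) := by
  have hfin : Module.Finite (ZMod 2) F := Module.Finite.of_finite
  have h1 : (minpoly (ZMod 2) (g : F)).natDegree = Module.finrank (ZMod 2) F := by
    rw [← IntermediateField.adjoin.finrank (Algebra.IsIntegral.isIntegral (R := ZMod 2) (g : F)),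
      gen_top g hg, IntermediateField.finrank_top']
  have h2 := linearIndependent_pow (K := ZMod 2) (g : F)
  have h3 := h2.comp (Fin.castLE (n := n) (hn.trans h1.ge)) (Fin.castLE_injective _)
  exact h3

include hg in
theorem sum_pow_inj (n : ℕ) (hn : n ≤ Module.finrank (ZMod 2) F) (P P' : Finset ℕ)
    (hP : P ⊆ Finset.range n) (hP' : P' ⊆ Finset.range n)
    (h : ∑ q ∈ P, ((g ^ ((q : ℤ) + 1) : Fˣ) : F) = ∑ q ∈ P', ((g ^ ((q : ℤ) + 1) : Fˣ) : F)) :
    P = P' := by
  have conv : ∀ P : Finset ℕ, P ⊆ Finset.range n →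
      ∑ q ∈ P, ((g ^ ((q : ℤ) + 1) : Fˣ) : F) =
        (g : F) * ∑ i : Fin n, (if (i : ℕ) ∈ P then (1 : ZMod 2) else 0) • (g : F) ^ (i : ℕ) := by
    intro P hP
    rw [Finset.mul_sum]
    have h1 : ∀ i : Fin n, (g : F) * ((if (i : ℕ) ∈ P then (1 : ZMod 2) else 0) •
        (g : F) ^ (i : ℕ)) = if (i : ℕ) ∈ P then (g : F) ^ ((i : ℕ) + 1) else 0 := by
      intro i
      split_ifs
      · rw [one_smul]; ring
      · simp
    rw [Finset.sum_congr rfl (fun i _ => h1 i)]
    rw [Fin.sum_univ_eq_sum_range (fun i => if i ∈ P then (g : F) ^ (i + 1) else 0) n,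
      ← Finset.sum_filter]
    rw [show (Finset.range n).filter (fun i => i ∈ P) = P by
      ext i; simp only [Finset.mem_filter]; exact ⟨fun h => h.2, fun h => ⟨hP h, h⟩⟩]
    refine Finset.sum_congr rfl fun q _ => ?_
    rw [show ((q : ℤ) + 1) = ((q + 1 : ℕ) : ℤ) by push_cast; ring, zpow_natCast]
    simp
  rw [conv P hP, conv P' hP'] at h
  have h2 := mul_left_cancel₀ g.ne_zero h
  have h3 := Fintype.linearIndependent_iff.1 (pow_indep g hg n hn)
    (fun i => (if (i : ℕ) ∈ P then (1 : ZMod 2) else 0) - (if (i : ℕ) ∈ P' then (1 : ZMod 2) else 0))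
    (by simp only [sub_smul, Finset.sum_sub_distrib]; rw [h2, sub_self])
  ext q
  constructor
  · intro hq
    have := h3 ⟨q, Finset.mem_range.1 (hP hq)⟩
    simp only [hq, if_true] at this
    by_contra hq'
    simp [hq'] at this
  · intro hq
    have := h3 ⟨q, Finset.mem_range.1 (hP' hq)⟩
    simp only [hq, if_true] at this
    by_contra hq'
    simp [hq'] at this

end field

/-- the product ring -/
abbrev RR (e : ℕ → ℕ) : Type := ∀ j, GaloisField 2 (e j)

/-- a generator of the units of the field number `j` -/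
noncomputable def gen (e : ℕ → ℕ) (j : ℕ) : (GaloisField 2 (e j))ˣ :=
  (IsCyclic.exists_generator (α := (GaloisField 2 (e j))ˣ)).choose

theorem gen_spec (e : ℕ → ℕ) (j : ℕ) : ∀ x, x ∈ Subgroup.zpowers (gen e j) :=
  (IsCyclic.exists_generator (α := (GaloisField 2 (e j))ˣ)).choose_spec

/-- the data attached to the distances `k j + 1` and the exponents `e j` -/
noncomputable def DD (k e : ℕ → ℕ) : Dat (RR e) where
  θ := MulEquiv.piUnits.symm (gen e)
  c := fun d j => if d = (k j : ℤ) + 1 then 1 else 0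
  c0 := by
    funext j
    rw [if_neg (by omega)]
    rfl

variable {k e : ℕ → ℕ}

theorem theta_apply (q : ℤ) (j : ℕ) :
    (((DD k e).θ ^ q : (RR e)ˣ) : RR e) j = ((gen e j ^ q : (GaloisField 2 (e j))ˣ) :
      GaloisField 2 (e j)) := by
  have h1 : MulEquiv.piUnits ((DD k e).θ ^ q) = gen e ^ q := by
    rw [map_zpow]
    congr 1
  have h2 := congrFun h1 j
  have h3 := congrArg Units.val h2
  exact h3

theorem c_neg (j : ℕ) : (DD k e).c (-((k j : ℤ) + 1)) = 0 := by
  funext i
  change (if -((k j : ℤ) + 1) = (k i : ℤ) + 1 then (1 : GaloisField 2 (e i)) else 0) = 0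
  rw [if_neg (by omega)]

theorem c_pos (hk : Function.Injective k) (j : ℕ) :
    (DD k e).c ((k j : ℤ) + 1) = Pi.single j 1 := by
  funext i
  change (if (k j : ℤ) + 1 = (k i : ℤ) + 1 then (1 : GaloisField 2 (e i)) else 0) = _
  by_cases h : i = j
  · subst h; simp
  · rw [if_neg (by intro h2; exact h (hk (by omega)))]
    rw [Pi.single_eq_of_ne h]

theorem c_small (j : ℕ) (d : ℤ) (h : |d| < (k j : ℤ) + 1) : (DD k e).c d j = 0 := by
  change (if d = (k j : ℤ) + 1 then (1 : GaloisField 2 (e j)) else 0) = _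
  rw [if_neg]
  rintro rfl
  rw [abs_of_nonneg (by omega)] at h
  omega

theorem detour_val (hk : Function.Injective k) (j : ℕ) (q : ℤ) :
    (((DD k e).θ ^ q : (RR e)ˣ) : RR e) * ((DD k e).c ((k j : ℤ) + 1) * ((DD k e).θ : RR e))
      = Pi.single j ((gen e j ^ (q + 1) : (GaloisField 2 (e j))ˣ) : GaloisField 2 (e j)) := by
  rw [c_pos hk]
  funext i
  have h1 : ((DD k e).θ : RR e) i = ((gen e i ^ (1 : ℤ) : (GaloisField 2 (e i))ˣ) :
      GaloisField 2 (e i)) := by
    rw [← theta_apply (k := k), zpow_one]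
  rw [Pi.mul_apply, Pi.mul_apply, h1, theta_apply]
  by_cases h : i = j
  · subst h
    rw [Pi.single_eq_same, Pi.single_eq_same, zpow_add, Units.val_mul]
    ring
  · rw [Pi.single_eq_of_ne h, Pi.single_eq_of_ne h]
    ring

end Pool.Agent.Helper39.SI
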