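import Pool.Agent.Helper39.SI.C

/-!
# Geodesic words have few turns
-/

set_option linter.unusedSectionVars false

namespace Pool.Agent.Helper39.SI

variable {k e : ℕ → ℕ}

/-- total length of the detours of the components below `i` -/
def Ds (k : ℕ → ℕ) (i : ℕ) : ℕ := ∑ j ∈ Finset.range i, (4 * k j + 8)

/-- total size of the components below `i` -/
def Qs (e : ℕ → ℕ) (i : ℕ) : ℕ := ∑ j ∈ Finset.range i, 2 ^ e j

theorem detour_at (hk : Function.Injective k) (j : ℕ) (w : List (Bool × Bool)) (q : ℤ)
    (h1 : lo (dr w) ≤ q) (h2 : q ≤ hi (dr w)) :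
    ∃ w', ev (DD k e) w' = cen (DD k e) (Pi.single j
        ((gen e j ^ (q + 1) : (GaloisField 2 (e j))ˣ) : GaloisField 2 (e j))) * ev (DD k e) w ∧
      w'.length = w.length + (4 * k j + 8) ∧ hi (dr w) ≤ hi (dr w') ∧ lo (dr w') ≤ lo (dr w) := by
  obtain ⟨w', h3, h4, h5, h6⟩ := insert_detour (D := DD k e) (k j) (c_neg j) w q h1 h2
  refine ⟨w', ?_, h4, h5, h6⟩
  rw [h3, detour_val hk]

/-- Changing the middle coordinate by detours. -/
theorem fix (hk : Function.Injective k) (he : ∀ j, e j ≠ 0) (i : ℕ) :
    ∀ η : RR e, (∀ j, i ≤ j → η j = 0) → ∀ w : List (Bool × Bool),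
      (∀ j < i, (2 : ℤ) ^ e j ≤ hi (dr w) - lo (dr w)) →
      ∃ w', ev (DD k e) w' = cen (DD k e) η * ev (DD k e) w ∧
        w'.length ≤ w.length + Ds k i := by
  induction i with
  | zero =>
    intro η hη w _
    refine ⟨w, ?_, by simp [Ds]⟩
    have : η = 0 := by
      funext j
      exact hη j (Nat.zero_le j)
    rw [this, cen_zero, one_mul]
  | succ i ih =>
    intro η hη w hw
    by_cases h0 : η i = 0
    · obtain ⟨w', h1, h2⟩ := ih η (by
        intro j hj
        rcases Nat.eq_or_lt_of_le hj with h | h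
        · subst h; exact h0
        · exact hη j h) w (fun j hj => hw j (Nat.lt_succ_of_lt hj))
      refine ⟨w', h1, h2.trans ?_⟩
      simp only [Ds, Finset.sum_range_succ]
      omega
    · have : NeZero (e i) := ⟨he i⟩
      obtain ⟨q, hq1, hq2, hq3⟩ := exists_power (gen e i) (gen_spec e i) (η i) h0 (lo (dr w))
      have hcard : (Nat.card (GaloisField 2 (e i)) : ℤ) = 2 ^ e i := by
        rw [GaloisField.card 2 (e i) (he i)]
        push_cast
        rfl
      rw [hcard] at hq2
      have hwi := hw i (Nat.lt_succ_self i)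
      obtain ⟨w1, h1, h2, h3, h4⟩ := detour_at (e := e) hk i w q hq1 (by omega)
      rw [hq3] at h1
      obtain ⟨w', h5, h6⟩ := ih (Function.update η i 0) (by
        intro j hj
        rcases Nat.eq_or_lt_of_le hj with h | h
        · subst h; simp
        · rw [Function.update_of_ne (by omega)]
          exact hη j h) w1 (fun j hj => by
            have := hw j (Nat.lt_succ_of_lt hj)
            omega)
      refine ⟨w', ?_, ?_⟩
      · rw [h5, h1, ← mul_assoc, cen_cen]
        congr 2
        funext j
        rw [Pi.add_apply]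
        by_cases hj : j = i
        · subst hj; simp
        · rw [Function.update_of_ne hj, Pi.single_eq_of_ne hj, add_zero]
      · simp only [Ds, Finset.sum_range_succ] at *
        omega

/-- Geodesic words. -/
def Geod (D : Dat (RR e)) (w : List (Bool × Bool)) : Prop :=
  ∀ w', ev D w' = ev D w → w.length ≤ w'.length

theorem pow_le_Qs (i j : ℕ) (h : j < i) : 2 ^ e j ≤ Qs e i := by
  unfold Qs
  exact Finset.single_le_sum (f := fun j => 2 ^ e j) (fun _ _ => Nat.zero_le _)
    (Finset.mem_range.2 h)

theorem short (hk : Function.Injective k) (he : ∀ j, e j ≠ 0) (i : ℕ) (w : List (Bool × Bool))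
    (hg : Geod (DD k e) w) (σ : List Bool) (h1 : lo σ ≤ lo (dr w)) (h2 : hi (dr w) ≤ hi σ)
    (h3 : ps σ = ps (dr w)) (h4 : (Qs e i : ℤ) ≤ hi σ - lo σ)
    (h5 : ∀ j, i ≤ j → hi σ - lo σ ≤ (k j : ℤ) + 1) : w.length ≤ σ.length + Ds k i := by
  obtain ⟨w1, hw1, hw2⟩ := toggle (D := DD k e) σ (ev (DD k e) w).u (by
    intro m hm
    have := ev_supp w m hm
    omega)
  have hvan : ∀ j, i ≤ j → ∀ v : List (Bool × Bool),
      hi (dr v) - lo (dr v) ≤ hi σ - lo σ → (ev (DD k e) v).a j = 0 := by
    intro j hj v hv
    exact ev_a_vanish (D := DD k e) (Pi.evalRingHom (fun j => GaloisField 2 (e j)) j)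
      ((k j : ℤ) + 1) (fun d hd => c_small j d hd) v (hv.trans (h5 j hj))
  obtain ⟨w', h6, h7⟩ := fix hk he i ((ev (DD k e) w).a - (ev (DD k e) w1).a) (by
    intro j hj
    rw [Pi.sub_apply, hvan j hj w (by omega), hvan j hj w1 (by rw [hw1]), sub_zero]) w1 (by
    intro j hj
    have := pow_le_Qs (e := e) i j hj
    rw [hw1]
    refine le_trans ?_ h4
    exact_mod_cast this)
  have h8 := hg w' (by
    rw [h6, cen_mul]
    ext1
    · exact hw2
    · exact sub_add_cancel _ _
    · change (ev (DD k e) w1).p = _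
      rw [ev_p, ev_p, hw1, h3])
  have h9 : w1.length = σ.length := by rw [← hw1]; simp
  omega

/-- Long geodesic words have few turns. -/
theorem slack (hk : Function.Injective k) (he : ∀ j, e j ≠ 0) (i : ℕ) (w : List (Bool × Bool))
    (hg : Geod (DD k e) w) (h1 : 4 * Qs e i + Ds k i < w.length)
    (h2 : ∀ j, i ≤ j → w.length + Qs e i ≤ k j + 1) : tn (dr w) ≤ Ds k i + 2 := by
  have hb := bounds (dr w)
  have hr := range_le_length (dr w)
  have hr' : (dr w).length = w.length := by simp
  have hp := pot (dr w)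
  obtain ⟨σ, hσ1, hσ2, hσ3, hσ4⟩ := canon (lo (dr w)) (hi (dr w)) (ps (dr w)) hb.1 hb.2.1 hb.2.2.1
    hb.2.2.2
  have habs := abs_nonneg (ps (dr w))
  by_cases hbig : (Qs e i : ℤ) ≤ hi (dr w) - lo (dr w)
  · have h3 := short hk he i w hg σ (by omega) (by omega) hσ3 (by omega) (by
      intro j hj
      have := h2 j hj
      omega)
    omega
  · exfalso
    have h4 := rep_true (Qs e i)
    have h5 := rep_false (Qs e i)
    have h3 := short hk he i w hg
      (σ ++ (List.replicate (Qs e i) false ++ List.replicate (Qs e i) true))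
      (by simp only [lo_append, ps_append, h4, h5]; omega)
      (by simp only [hi_append, ps_append, h4, h5]; omega)
      (by simp only [ps_append, h4, h5]; omega)
      (by simp only [lo_append, hi_append, ps_append, h4, h5]; omega)
      (by
        intro j hj
        have := h2 j hj
        simp only [lo_append, hi_append, ps_append, h4, h5]
        omega)
    simp only [List.length_append, List.length_replicate] at h3
    omega

end Pool.Agent.Helper39.SI
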