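import Pool.Agent.Helper39.SI.D

/-!
# Counting words with few turns and a lower bound for balls
-/

set_option linter.unusedSectionVars false

namespace Pool.Agent.Helper39.SI

/-- words of length `n` with at most `T` turns when followed by the direction `d` -/
def Fw : ℕ → ℕ → Bool → Finset (List (Bool × Bool))
  | 0, _, _ => {[]}
  | n + 1, 0, d => (Finset.univ ×ˢ Fw n 0 d).image (fun x : Bool × List (Bool × Bool) =>
      (d, x.1) :: x.2)
  | n + 1, T + 1, d =>
      (Finset.univ ×ˢ Fw n (T + 1) d).image (fun x : Bool × List (Bool × Bool) =>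
        (d, x.1) :: x.2) ∪
      (Finset.univ ×ˢ Fw n T (!d)).image (fun x : Bool × List (Bool × Bool) =>
        (!d, x.1) :: x.2)

theorem mem_Fw (w : List (Bool × Bool)) : ∀ T d, tf d (dr w) ≤ T → w ∈ Fw w.length T d := by
  induction w with
  | nil => intro T d _; simp [Fw]
  | cons x w ih =>
    intro T d h
    obtain ⟨c, b⟩ := x
    simp only [dr, List.map_cons, tf] at h
    rw [List.length_cons]
    cases T with
    | zero =>
      have hcd : c = d := by
        by_contra hne
        rw [if_neg hne] at h
        omega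
      subst hcd
      simp only [Fw, Finset.mem_image, Finset.mem_product, Finset.mem_univ, true_and]
      refine ⟨(b, w), ih 0 c ?_, rfl⟩
      simp only [if_true] at h
      simp only [dr]
      omega
    | succ T =>
      simp only [Fw, Finset.mem_union, Finset.mem_image, Finset.mem_product, Finset.mem_univ,
        true_and]
      by_cases hcd : c = d
      · subst hcd
        left
        refine ⟨(b, w), ih (T + 1) c ?_, rfl⟩
        simp only [if_true] at h
        simp only [dr]
        omega
      · right
        have hc : c = !d := by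
          revert hcd
          cases c <;> cases d <;> simp
        subst hc
        refine ⟨(b, w), ih T (!d) ?_, rfl⟩
        rw [if_neg hcd] at h
        simp only [dr]
        omega

theorem card_Fw (n : ℕ) : ∀ T d, (Fw n T d).card ≤ 2 ^ n * (n + 1) ^ T := by
  induction n with
  | zero => intro T d; simp [Fw]
  | succ n ih =>
    intro T d
    cases T with
    | zero =>
      have h1 := ih 0 d
      refine Finset.card_image_le.trans ?_
      rw [Finset.card_product]
      simp only [Finset.card_univ, Fintype.card_bool, pow_zero, mul_one] at *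
      rw [pow_succ]
      omega
    | succ T =>
      have h1 := ih (T + 1) d
      have h2 := ih T (!d)
      refine (Finset.card_union_le _ _).trans ?_
      refine (Nat.add_le_add Finset.card_image_le Finset.card_image_le).trans ?_
      rw [Finset.card_product, Finset.card_product]
      simp only [Finset.card_univ, Fintype.card_bool]
      calc 2 * (Fw n (T + 1) d).card + 2 * (Fw n T (!d)).card
          ≤ 2 * (2 ^ n * (n + 1) ^ (T + 1)) + 2 * (2 ^ n * (n + 1) ^ T) := by omega
        _ = 2 ^ (n + 1) * ((n + 1) ^ T * (n + 2)) := by ring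
        _ ≤ 2 ^ (n + 1) * ((n + 1 + 1) ^ T * (n + 1 + 1)) := by
            gcongr <;> omega
        _ = 2 ^ (n + 1) * (n + 1 + 1) ^ (T + 1) := by ring

/-- words of length `n` with at most `T` turns -/
def Gw (n T : ℕ) : Finset (List (Bool × Bool)) := Fw n T true ∪ Fw n T false

theorem mem_Gw (w : List (Bool × Bool)) (T : ℕ) (h : tn (dr w) ≤ T) : w ∈ Gw w.length T := by
  cases w with
  | nil => simp [Gw, Fw]
  | cons x w =>
    obtain ⟨c, b⟩ := x
    have h1 : tf c (dr ((c, b) :: w)) ≤ T := by
      simp only [dr, List.map_cons, tf, tn] at *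
      simpa using h
    have h2 := mem_Fw ((c, b) :: w) T c h1
    cases c
    · exact Finset.mem_union_right _ h2
    · exact Finset.mem_union_left _ h2

theorem card_Gw (n T : ℕ) : (Gw n T).card ≤ 2 ^ (n + 1) * (n + 1) ^ T := by
  have h1 := card_Fw n T true
  have h2 := card_Fw n T false
  have h3 := Finset.card_union_le (Fw n T true) (Fw n T false)
  calc (Gw n T).card ≤ (Fw n T true).card + (Fw n T false).card := h3
    _ ≤ 2 ^ n * (n + 1) ^ T + 2 ^ n * (n + 1) ^ T := by omega
    _ = 2 ^ (n + 1) * (n + 1) ^ T := by ring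

/-! ### The lower bound -/

/-- straight words with prescribed toggles -/
def stw (Q : Finset ℕ) : ℕ → List (Bool × Bool)
  | 0 => []
  | n + 1 => (true, decide (n ∈ Q)) :: stw Q n

theorem dr_stw (Q : Finset ℕ) (n : ℕ) : dr (stw Q n) = List.replicate n true := by
  induction n with
  | zero => rfl
  | succ n ih =>
    rw [List.replicate_succ, ← ih]
    rfl

theorem length_stw (Q : Finset ℕ) (n : ℕ) : (stw Q n).length = n := by
  have := congrArg List.length (dr_stw Q n)
  simpa using this

section

variable {R : Type} [CommRing R] [Algebra (ZMod 2) R] {D : Dat R}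

theorem u_stw (Q : Finset ℕ) (n : ℕ) (m : ℕ) :
    (ev D (stw Q n)).u ((m : ℤ) + 1) = if m < n ∧ m ∈ Q then 1 else 0 := by
  induction n with
  | zero => simp [stw]
  | succ n ih =>
    rw [stw, ev_cons_u, Finsupp.add_apply, ih, ev_p, dr_stw, (rep_true n).1]
    change _ + bd (decide (n ∈ Q)) ((n : ℤ) + 1) ((m : ℤ) + 1) = _
    by_cases hmn : m = n
    · subst hmn
      by_cases hQ : m ∈ Q <;> simp [hQ]
    · rw [bd_apply_ne _ _ _ (by omega), add_zero]
      by_cases hQ : m ∈ Q
      · simp only [hQ, and_true]
        by_cases h : m < n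
        · rw [if_pos h, if_pos (by omega)]
        · rw [if_neg h, if_neg (by omega)]
      · simp [hQ]

end

variable {k e : ℕ → ℕ}

/-- the value of a set of detours -/
noncomputable def dv (e : ℕ → ℕ) (i : ℕ) (P : Finset ℕ) : GaloisField 2 (e i) :=
  ∑ q ∈ P, ((gen e i ^ ((q : ℤ) + 1) : (GaloisField 2 (e i))ˣ) : GaloisField 2 (e i))

theorem many (hk : Function.Injective k) (i L : ℕ) (Q : Finset ℕ) (P : Finset ℕ) :
    P ⊆ Finset.range L →
    ∃ w, ev (DD k e) w = cen (DD k e) (Pi.single i (dv e i P)) * ev (DD k e) (stw Q L) ∧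
      w.length = L + P.card * (4 * k i + 8) ∧ (L : ℤ) ≤ hi (dr w) ∧ lo (dr w) ≤ 0 := by
  classical
  induction P using Finset.induction_on with
  | empty =>
    intro _
    refine ⟨stw Q L, ?_, by simp [length_stw], ?_, ?_⟩
    · simp [dv, cen_zero]
    · rw [dr_stw, (rep_true L).2.2]
    · rw [dr_stw, (rep_true L).2.1]
  | insert q P hq ih =>
    intro hP
    obtain ⟨w, h1, h2, h3, h4⟩ := ih ((Finset.subset_insert q P).trans hP)
    have hqL : q < L := Finset.mem_range.1 (hP (Finset.mem_insert_self q P))
    obtain ⟨w', h5, h6, h7, h8⟩ := detour_at (e := e) hk i w (q : ℤ) (by omega) (by omega)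
    refine ⟨w', ?_, ?_, by omega, by omega⟩
    · rw [h5, h1, ← mul_assoc, cen_cen, ← Pi.single_add]
      rw [dv, dv, Finset.sum_insert hq]
    · rw [h6, h2, Finset.card_insert_of_notMem hq]
      ring

theorem ball_lower (hk : Function.Injective k) (he : ∀ j, e j ≠ 0) (i L r : ℕ) (hL : L ≤ e i) :
    ∃ E : Finset (W (DD k e)), E.card = L.choose r * 2 ^ L ∧
      ∀ g ∈ E, ∃ w, w.length = L + r * (4 * k i + 8) ∧ ev (DD k e) w = g := by
  classical
  refine ⟨((Finset.powersetCard r (Finset.range L)) ×ˢ (Finset.range L).powerset).image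
    (fun x => cen (DD k e) (Pi.single i (dv e i x.1)) * ev (DD k e) (stw x.2 L)), ?_, ?_⟩
  · rw [Finset.card_image_of_injOn, Finset.card_product, Finset.card_powersetCard,
      Finset.card_powerset, Finset.card_range]
    rintro ⟨P, Q⟩ hx ⟨P', Q'⟩ hx' h
    simp only [Finset.coe_product, Set.mem_prod, Finset.mem_coe, Finset.mem_powersetCard,
      Finset.mem_powerset] at hx hx'
    obtain ⟨⟨hP, hPr⟩, hQ⟩ := hx
    obtain ⟨⟨hP', hPr'⟩, hQ'⟩ := hx'
    simp only [cen_mul] at h
    have hu := congrArg W.u h
    have ha := congrArg W.a h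
    simp only at hu ha
    have hQQ : Q = Q' := by
      ext m
      have hm := DFunLike.congr_fun hu ((m : ℤ) + 1)
      rw [u_stw, u_stw] at hm
      constructor
      · intro hmQ
        have hmL : m < L := Finset.mem_range.1 (hQ hmQ)
        rw [if_pos ⟨hmL, hmQ⟩] at hm
        by_contra hn
        rw [if_neg (fun h => hn h.2)] at hm
        exact one_ne_zero hm
      · intro hmQ
        have hmL : m < L := Finset.mem_range.1 (hQ' hmQ)
        have hm' := hm.symm
        rw [if_pos ⟨hmL, hmQ⟩] at hm'
        by_contra hn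
        rw [if_neg (fun h => hn h.2)] at hm'
        exact one_ne_zero hm'
    subst hQQ
    have ha2 := congrFun (add_right_cancel ha) i
    rw [Pi.single_eq_same, Pi.single_eq_same] at ha2
    have hPP := sum_pow_inj (gen e i) (gen_spec e i) L
      (by rw [GaloisField.finrank 2 (he i)]; exact hL) P P' hP hP' ha2
    rw [hPP]
  · intro g hg
    simp only [Finset.mem_image, Finset.mem_product, Finset.mem_powersetCard,
      Finset.mem_powerset] at hg
    obtain ⟨⟨P, Q⟩, ⟨⟨hP, hPr⟩, hQ⟩, rfl⟩ := hg
    obtain ⟨w, h1, h2, -, -⟩ := many (e := e) hk i L Q P hP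
    simp only at hPr
    exact ⟨w, by rw [h2, hPr], h1⟩

end Pool.Agent.Helper39.SI
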