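import Pool.Agent.Helper39.SI.E

/-!
# Choice of the parameters
-/

namespace Pool.Agent.Helper39.SI

open Nat in
theorem num (i T C L : ℕ) (hL : L = C + 2 * (T + 1) + (T + 1)! * (4 * (i + 1) * 2 ^ (C + T) + 4 ^ i)) :
    4 ^ i + (i + 1) * ∑ n ∈ Finset.range (L + C + 1), 2 ^ (n + 1) * (n + 1) ^ T
      < L.choose (T + 1) * 2 ^ L := by
  set r := T + 1 with hr
  set x := L + 1 - r with hx
  set K := 4 * (i + 1) * 2 ^ (C + T) + 4 ^ i with hK
  have hx1 : r ! * K < x := by omega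
  have hx0 : 0 < x := by omega
  have h2x : L + C + 1 ≤ 2 * x := by omega
  have hch : x ^ r ≤ r ! * L.choose r := by
    rw [← Nat.descFactorial_eq_factorial_mul_choose]
    exact Nat.pow_sub_le_descFactorial L r
  have hsum : ∑ n ∈ Finset.range (L + C + 1), 2 ^ (n + 1) * (n + 1) ^ T
      ≤ 4 * 2 ^ C * 2 ^ L * (L + C + 1) ^ T := by
    calc ∑ n ∈ Finset.range (L + C + 1), 2 ^ (n + 1) * (n + 1) ^ T
        ≤ ∑ n ∈ Finset.range (L + C + 1), 2 ^ (n + 1) * (L + C + 1) ^ T := by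
          refine Finset.sum_le_sum fun n hn => ?_
          have : n < L + C + 1 := Finset.mem_range.1 hn
          gcongr
          omega
      _ = (∑ n ∈ Finset.range (L + C + 1), 2 ^ n) * (2 * (L + C + 1) ^ T) := by
          rw [Finset.sum_mul]
          refine Finset.sum_congr rfl fun n _ => ?_
          ring
      _ ≤ 2 ^ (L + C + 1) * (2 * (L + C + 1) ^ T) := by
          gcongr
          rw [Nat.geomSum_eq (le_refl 2)]
          simp
      _ = 4 * 2 ^ C * 2 ^ L * (L + C + 1) ^ T := by ring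
  have h1 : 4 ^ i + 4 * (i + 1) * 2 ^ C * (L + C + 1) ^ T < L.choose r := by
    have h2 : r ! * (4 ^ i + 4 * (i + 1) * 2 ^ C * (L + C + 1) ^ T) < r ! * L.choose r := by
      calc r ! * (4 ^ i + 4 * (i + 1) * 2 ^ C * (L + C + 1) ^ T)
          ≤ r ! * (4 ^ i * x ^ T + 4 * (i + 1) * 2 ^ C * (2 * x) ^ T) := by
            have : 1 ≤ x ^ T := Nat.one_le_pow _ _ hx0
            gcongr
            nlinarith [Nat.zero_le (4 ^ i)]
        _ = r ! * K * x ^ T := by rw [hK]; ring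
        _ < x * x ^ T := by
            have : 0 < x ^ T := Nat.pow_pos hx0
            exact Nat.mul_lt_mul_of_pos_right hx1 this
        _ = x ^ r := by rw [hr]; ring
        _ ≤ r ! * L.choose r := hch
    exact Nat.lt_of_mul_lt_mul_left h2
  have h2L : 1 ≤ 2 ^ L := Nat.one_le_two_pow
  calc 4 ^ i + (i + 1) * ∑ n ∈ Finset.range (L + C + 1), 2 ^ (n + 1) * (n + 1) ^ T
      ≤ 4 ^ i * 2 ^ L + (i + 1) * (4 * 2 ^ C * 2 ^ L * (L + C + 1) ^ T) := by
        gcongr
        nlinarith [Nat.zero_le (4 ^ i)]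
    _ = (4 ^ i + 4 * (i + 1) * 2 ^ C * (L + C + 1) ^ T) * 2 ^ L := by ring
    _ < L.choose r * 2 ^ L := Nat.mul_lt_mul_of_pos_right h1 (by omega)

/-- the number of turns allowed after including the component with parameters `k`, `D` -/
def pT (k D : ℕ) : ℕ := D + (4 * k + 8) + 2

/-- total length of detours used for the lower bound -/
def pC (k D : ℕ) : ℕ := (pT k D + 1) * (4 * k + 8)

open Nat in
/-- length of the straight words used for the lower bound -/
def pL (i k D : ℕ) : ℕ :=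
  pC k D + 2 * (pT k D + 1) +
    (pT k D + 1)! * (4 * (i + 1) * 2 ^ (pC k D + pT k D) + 4 ^ i)

/-- the recursion: `(k, D, Q)` -/
def pst : ℕ → ℕ × ℕ × ℕ
  | 0 => (0, 0, 0)
  | i + 1 =>
    ((pL i (pst i).1 (pst i).2.1 + pC (pst i).1 (pst i).2.1)
        + 5 * ((pst i).2.2 + 2 ^ pL i (pst i).1 (pst i).2.1) +
        ((pst i).2.1 + (4 * (pst i).1 + 8)) + (pst i).1 + 2,
      (pst i).2.1 + (4 * (pst i).1 + 8),
      (pst i).2.2 + 2 ^ pL i (pst i).1 (pst i).2.1)

/-- the distances -/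
def kk (i : ℕ) : ℕ := (pst i).1

/-- the exponents -/
def ee (i : ℕ) : ℕ := pL i (pst i).1 (pst i).2.1

theorem Ds_kk (i : ℕ) : Ds kk i = (pst i).2.1 := by
  induction i with
  | zero => rfl
  | succ i ih =>
    rw [Ds, Finset.sum_range_succ]
    change Ds kk i + (4 * kk i + 8) = _
    rw [ih]
    rfl

theorem Qs_ee (i : ℕ) : Qs ee i = (pst i).2.2 := by
  induction i with
  | zero => rfl
  | succ i ih =>
    rw [Qs, Finset.sum_range_succ]
    change Qs ee i + 2 ^ ee i = _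
    rw [ih]
    rfl

theorem kk_succ (i : ℕ) : kk (i + 1) = (ee i + pC (kk i) (Ds kk i)) + 5 * Qs ee (i + 1)
    + Ds kk (i + 1) + kk i + 2 := by
  rw [Qs_ee, Ds_kk, Ds_kk]
  rfl

theorem kk_strictMono : StrictMono kk := by
  apply strictMono_nat_of_lt_succ
  intro i
  rw [kk_succ]
  omega

theorem Ds_succ (i : ℕ) : Ds kk (i + 1) = Ds kk i + (4 * kk i + 8) := by
  rw [Ds_kk, Ds_kk]
  rfl

theorem ee_ne (i : ℕ) : ee i ≠ 0 := by
  unfold ee pL
  omega

theorem pT_eq (i : ℕ) : pT (kk i) (Ds kk i) = Ds kk (i + 1) + 2 := by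
  rw [Ds_succ]
  rfl

theorem num_ee (i : ℕ) :
    4 ^ i + (i + 1) * ∑ n ∈ Finset.range (ee i + pC (kk i) (Ds kk i) + 1),
        2 ^ (n + 1) * (n + 1) ^ (Ds kk (i + 1) + 2)
      < (ee i).choose (Ds kk (i + 1) + 2 + 1) * 2 ^ (ee i) := by
  rw [← pT_eq]
  apply num
  rw [Ds_kk]
  rfl

theorem pC_eq (i : ℕ) : pC (kk i) (Ds kk i) = (Ds kk (i + 1) + 2 + 1) * (4 * kk i + 8) := by
  rw [← pT_eq]
  rfl

end Pool.Agent.Helper39.SI
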